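import Pool.Agent.H25.Spread

open Finset Matrix Pool.Agent.H25.Spread

namespace Pool.Agent.Results.MP_6838a0_co.Gap

lemma aux {n : ℕ} (hn : 2 ≤ n) (L : Matrix (Fin n) (Fin n) ℤ) (α : ℝ)
    (h1 : (L + Lᵀ)ᵀ.map (Int.castRingHom ℝ) *ᵥ (fun _ => 1) = 0)
    (h : Lo (L.map (Int.castRingHom ℝ)) α) (x : Fin n → ℝ) (x0 : ∑ i, x i = 0) (x1 : x ⬝ᵥ x = 1)
    (x2 : α = x ⬝ᵥ L.map (Int.castRingHom ℝ) *ᵥ x) : IsIntegral ℤ (2 * α) := by
  obtain ⟨t, ht⟩ := eig h x0 (by rw [x1, mul_one, x2]) ⟨0, by omega⟩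
  have hS : (L + Lᵀ).map (Int.castRingHom ℝ) =
      L.map (Int.castRingHom ℝ) + (L.map (Int.castRingHom ℝ))ᵀ := by ext i j; simp
  rw [← hS] at ht
  have h2 := congrArg ((fun _ => (1 : ℝ)) ⬝ᵥ ·) ht
  simp only [dotProduct_mulVec, ← mulVec_transpose, ← transpose_map, h1] at h2
  have h3 : (n : ℝ) ≠ 0 := by positivity
  simp [dotProduct, sum_add_distrib, ← mul_sum, x0, h3] at h2
  exact int_eig (L + Lᵀ) _ x (by rintro rfl; simp at x1) (by rw [ht, h2]; simp)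

theorem result (n : ℕ) (hn : 2 ≤ n) (E : Fin n → Fin n → Bool) (_hE : ∀ i, E i i = false)
    (hbal : ∀ i, (univ.filter fun j => E i j).card = (univ.filter fun j => E j i).card)
    (α β : ℝ) (hα : IsLeast (vals E) α) (hβ : IsGreatest (vals E) β) :
    ¬(0 < β - α ∧ β - α < 1) := by
  obtain ⟨l1, l2⟩ := lo_vals hα hβ
  obtain ⟨x, x0, x1, x2⟩ := hα.1
  obtain ⟨y, y0, y1, y2⟩ := hβ.1
  have e : (lap ℤ E + (lap ℤ E)ᵀ)ᵀ.map (Int.castRingHom ℝ) *ᵥ (fun _ => 1) = 0 := by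
    have e1 : (lap ℤ E + (lap ℤ E)ᵀ)ᵀ.map (Int.castRingHom ℝ) = lap ℝ E + (lap ℝ E)ᵀ := by
      rw [← lap_map (Int.castRingHom ℝ)]; ext i j; simp [add_comm]
    rw [e1, add_mulVec, lap_one, zero_add]
    ext i
    simp [lap, mulVec, dotProduct, sum_sub_distrib, diagonal_apply, hbal]
  refine gap hn hα hβ (aux hn _ _ e (by rwa [lap_map]) x x0 x1 (by rwa [lap_map])) ?_
  have e2 : (-lap ℤ E).map (Int.castRingHom ℝ) = -lap ℝ E := by
    rw [← lap_map (Int.castRingHom ℝ)]; ext i j; simp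
  have := aux hn (-lap ℤ E) (-β) (by
    rw [transpose_neg, ← neg_add, transpose_neg, Matrix.map_neg _ (by simp), neg_mulVec, e,
      neg_zero]) (by rwa [e2]) y y0 y1 (by rw [e2, neg_mulVec, dotProduct_neg, y2])
  simpa using this.neg

end Pool.Agent.Results.MP_6838a0_co.Gap
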